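import Pool.Agent.Y493.Dupin.Bridge

open Pool.Agent.Y493.Dupin

namespace Pool.Agent.Results.MP_eed254_gt.ReducibleDupinThree

/-- Classification, up to local Lie equivalence, of the reducible proper Dupin hypersurfaces with
three principal curvatures. -/
theorem result (N : ℕ) :
    -- every such hypersurface of the sphere `S^(N+1)` is one of the models
    (∀ U x ν, IsRedDupinS N U x ν → ∃ (p q m : ℕ) (ρ : ℝ), 0 < p ∧ 0 < q ∧ 0 < m ∧
      p + q + m = N ∧ 0 < ρ ∧ ∀ a ∈ U, ∀ b ∈ modelDom p q m,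
        EquivSR x ν a (modelX p q m ρ) (modelN p q m) b) ∧
    -- the same for hypersurfaces of Euclidean space `ℝ^(N+1)`
    (∀ U x ν, IsRedDupinR N U x ν → ∃ (p q m : ℕ) (ρ : ℝ), 0 < p ∧ 0 < q ∧ 0 < m ∧
      p + q + m = N ∧ 0 < ρ ∧ ∀ a ∈ U, ∀ b ∈ modelDom p q m,
        EquivRR x ν a (modelX p q m ρ) (modelN p q m) b) ∧
    ∀ (p q m : ℕ) (ρ : ℝ), 0 < p → 0 < q → 0 < m → p + q + m = N → 0 < ρ →
      -- the model is a hypersurface of this kind, with multiplicities `p`, `q`, `m`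
      (IsHyp (modelDom p q m) (modelX p q m ρ) (modelN p q m) ∧
        IsProperDupin 3 (modelDom p q m) (modelX p q m ρ) (modelN p q m) ∧
        (∀ a ∈ modelDom p q m, ReducibleR 2 N (modelX p q m ρ) (modelN p q m) a) ∧
        HasMult p q m (modelDom p q m) (modelX p q m ρ) (modelN p q m)) ∧
      -- the model occurs in the sphere
      (∃ U x ν, IsRedDupinS N U x ν ∧ ∀ a ∈ U, ∀ b ∈ modelDom p q m,
        EquivSR x ν a (modelX p q m ρ) (modelN p q m) b) ∧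
      -- the coincidences between the models
      ∀ (p' q' m' : ℕ) (ρ' : ℝ), 0 < p' → 0 < q' → 0 < m' → 0 < ρ' →
        ∀ a ∈ modelDom p q m, ∀ a' ∈ modelDom p' q' m',
        (EquivRR (modelX p q m ρ) (modelN p q m) a (modelX p' q' m' ρ') (modelN p' q' m') a' ↔
          (p' = p ∧ q' = q ∧ m' = m ∧ ρ' = ρ) ∨
          (p' = q ∧ q' = p ∧ m' = m ∧ ρ ^ 2 + ρ' ^ 2 = 1) ∨
          (p' = m ∧ q' = q ∧ m' = p ∧ 1 < ρ ∧ (ρ ^ 2 - 1) * (ρ' ^ 2 - 1) = 1)) := by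
  refine ⟨fun U x ν h => ?_, fun U x ν h => ?_, ?_⟩
  · obtain ⟨p, q, m, ρ, hp, hq, hm, hN, hρ, hL⟩ :=
      connected_class h.1 fun a ha => reducibleS_iff.mp (h.2.2.2 a ha)
    exact ⟨p, q, m, ρ, hp, hq, hm, hN, hρ, fun a ha b hb => hL a ha b (mem_modelDom.mp hb)⟩
  · obtain ⟨p, q, m, ρ, hp, hq, hm, hN, hρ, hL⟩ :=
      connected_class h.1 fun a ha => reducibleR_iff.mp (h.2.2.2 a ha)
    exact ⟨p, q, m, ρ, hp, hq, hm, hN, hρ, fun a ha b hb => hL a ha b (mem_modelDom.mp hb)⟩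
  rintro p q m ρ hp hq hm rfl hρ
  have hPD := model_PD hp hq hm hρ
  rw [modelDom_eq]
  refine ⟨⟨hPD.hyp, isProperDupin_iff.mpr ⟨_, hPD.dupinFns⟩,
    fun a ha => reducibleR_iff.mpr (model_reducible hp hq hm hρ ha), model_mult hp hq hm hρ⟩, ?_,
    fun p' q' m' ρ' hp' hq' hm' hρ' a ha a' ha' =>
      model_iff hp hq hm hp' hq' hm' hρ hρ' ha (mem_modelDom.mp ha')⟩
  obtain ⟨U, x, ν, hU, hS, hD, h⟩ := model_sphere' hp hq hm hρ
  exact ⟨U, x, ν, ⟨hU, hS, hD, fun a ha => reducibleS_iff.mpr (h a ha).1⟩, fun a ha => (h a ha).2⟩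

end Pool.Agent.Results.MP_eed254_gt.ReducibleDupinThree
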